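import Pool.Agent.H211.HY.Stm2
import Pool.Graph.R_seed8.H790R3.RB.TPQ
import Pool.Graph.R_seed8.H790R3.RB.TWR

/-!
# Positive measure of conical points
-/

set_option autoImplicit false

open Topology Filter Metric Set MeasureTheory Polynomial

namespace Pool.Agent.H980.HY211

open Pool.Agent.H790R3.RB Pool.Agent.H211.HY

/-! ### Elementary facts -/

theorem N2_smul (a : ℂ) (p : ℂ × ℂ) : N2 (a • p) = ‖a‖ ^ 2 * N2 p := by
  unfold N2
  rw [Prod.smul_fst, Prod.smul_snd, smul_eq_mul, smul_eq_mul, norm_mul, norm_mul]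
  ring

theorem cho_smul (a b : ℂ) (ha : a ≠ 0) (hb : b ≠ 0) (p q : ℂ × ℂ) :
    cho (a • p) (b • q) = cho p q := by
  unfold cho
  rw [cr_smul_left, cr_smul_right, N2_smul, N2_smul]
  have h1 : ‖a‖ ^ 2 * N2 p * (‖b‖ ^ 2 * N2 q) = (‖a‖ * ‖b‖) ^ 2 * (N2 p * N2 q) := by ring
  rw [h1, Real.sqrt_mul (sq_nonneg _), Real.sqrt_sq (by positivity), norm_mul, norm_mul,
    ← mul_assoc]
  have h2 : ‖a‖ * ‖b‖ ≠ 0 := mul_ne_zero (norm_ne_zero_iff.mpr ha) (norm_ne_zero_iff.mpr hb)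
  exact mul_div_mul_left _ _ h2

/-- The coordinates of the iterates. -/
theorem iter_coord {d : ℕ} (x : CV d) (z : ℂ) : ∀ n : ℕ,
    (∀ m < n, (pol x 1).eval ((pf x)^[m] z) ≠ 0) →
    ∃ a : ℂ, a ≠ 0 ∧ (hF x)^[n] (z, 1) = a • (((pf x)^[n] z, 1) : ℂ × ℂ) := by
  intro n
  induction n with
  | zero =>
    intro _
    refine ⟨1, one_ne_zero, ?_⟩
    rw [one_smul]
    rfl
  | succ n ih =>
    intro h
    obtain ⟨a, ha, hn⟩ := ih (fun m hm => h m (by omega))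
    have hQ := h n (by omega)
    refine ⟨a ^ d * (pol x 1).eval ((pf x)^[n] z), mul_ne_zero (pow_ne_zero _ ha) hQ, ?_⟩
    rw [Function.iterate_succ_apply', hn, hF_smul, PQ.hF_one, Function.iterate_succ_apply',
      mul_smul]
    congr 1
    show ((pol x 0).eval ((pf x)^[n] z), (pol x 1).eval ((pf x)^[n] z)) =
      (pol x 1).eval ((pf x)^[n] z) • ((pf x ((pf x)^[n] z), 1) : ℂ × ℂ)
    unfold pf
    rw [Prod.smul_mk, smul_eq_mul, smul_eq_mul, mul_one, mul_div_cancel₀]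
    exact hQ

theorem pf_meas {d : ℕ} (x : CV d) : Measurable (pf x) := by
  have h1 : Measurable fun z => (pol x 0).eval z := (pol x 0).continuous.measurable
  have h2 : Measurable fun z => (pol x 1).eval z := (pol x 1).continuous.measurable
  exact h1.div h2

theorem Q_ne {d : ℕ} (hd : 2 ≤ d) (x : CV d) (hx : ND x) : pol x 1 ≠ 0 := by
  obtain ⟨h1, h2⟩ := PQ.part1 (by omega) x hx
  intro h
  rw [h, isCoprime_zero_right] at h1
  have h3 : (pol x 0).natDegree = 0 := natDegree_eq_zero_of_isUnit h1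
  rw [h3, h, natDegree_zero] at h2
  simp at h2
  omega

/-- The critical directions. -/
theorem crit {d : ℕ} (hd : 2 ≤ d) (x : CV d) (hN : Nrm x) : ∃ S : Finset ℂ,
    ∀ c : ℂ × ℂ, c ≠ 0 → wr x c = 0 → ∃ s ∈ S, ∃ a : ℂ, a ≠ 0 ∧ c = a • ((s, 1) : ℂ × ℂ) := by
  obtain ⟨h1, ⟨W, hW1, hW2, hW3⟩, h3⟩ := Pool.Agent.H790R3.RB.WR d x hd
  have hW : W ≠ 0 := by
    intro h
    rw [h, coeff_zero] at hW3
    exact hN.1 hW3.symm
  refine ⟨W.roots.toFinset, ?_⟩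
  intro c hc hwc
  have hc2 : c.2 ≠ 0 := hN.2 c hc hwc 0
  have he : c = c.2 • ((c.1 / c.2, 1) : ℂ × ℂ) := by
    apply Prod.ext
    · show c.1 = c.2 * (c.1 / c.2)
      rw [mul_div_cancel₀ _ hc2]
    · show c.2 = c.2 * 1
      rw [mul_one]
  refine ⟨c.1 / c.2, ?_, c.2, hc2, he⟩
  rw [Multiset.mem_toFinset, mem_roots hW]
  show W.eval (c.1 / c.2) = 0
  rw [hW2]
  rw [he, h1] at hwc
  rcases mul_eq_zero.mp hwc with h | h
  · exact absurd h (pow_ne_zero _ hc2)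
  · exact h

/-- A chordal disc is contained in a Euclidean disc. -/
theorem disc_sub (d : ℕ) (hd : d ≠ 0) (c : ℂ) (B u : ℝ) (hB : 1 + ‖c‖ ≤ B) (hu : 0 < u)
    (huB : u * B ≤ 1 / 2) :
    {w : ℂ | cho (w, 1) (c, 1) ^ d ≤ u ^ d} ⊆ ball c (4 * B ^ 2 * u) := by
  intro w hw
  have hc0 : 0 ≤ cho (w, 1) (c, 1) := by unfold cho; positivity
  have h1 : cho (w, 1) (c, 1) ≤ u := (pow_le_pow_iff_left₀ hc0 hu.le hd).mp hw
  have hB1 : 1 ≤ B := by
    have := norm_nonneg c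
    linarith
  have h2 : cho (w, 1) (c, 1) = ‖w - c‖ / Real.sqrt ((‖w‖ ^ 2 + 1) * (‖c‖ ^ 2 + 1)) := by
    unfold cho cr N2
    simp only [mul_one, one_mul, norm_one, one_pow]
  rw [h2] at h1
  have hpos : 0 < Real.sqrt ((‖w‖ ^ 2 + 1) * (‖c‖ ^ 2 + 1)) := Real.sqrt_pos.mpr (by positivity)
  rw [div_le_iff₀ hpos] at h1
  have h3 : Real.sqrt ((‖w‖ ^ 2 + 1) * (‖c‖ ^ 2 + 1)) ≤ (‖w‖ + 1) * (‖c‖ + 1) := by
    apply Real.sqrt_le_iff.mpr
    constructor
    · positivity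
    · have e1 : ‖w‖ ^ 2 + 1 ≤ (‖w‖ + 1) ^ 2 := by nlinarith [norm_nonneg w]
      have e2 : ‖c‖ ^ 2 + 1 ≤ (‖c‖ + 1) ^ 2 := by nlinarith [norm_nonneg c]
      calc (‖w‖ ^ 2 + 1) * (‖c‖ ^ 2 + 1) ≤ (‖w‖ + 1) ^ 2 * (‖c‖ + 1) ^ 2 :=
            mul_le_mul e1 e2 (by positivity) (by positivity)
        _ = ((‖w‖ + 1) * (‖c‖ + 1)) ^ 2 := by ring
  have h4 : ‖w‖ ≤ ‖w - c‖ + ‖c‖ := by
    have := norm_add_le (w - c) c
    rwa [sub_add_cancel] at this
  have h5 : ‖w - c‖ ≤ u * ((‖w‖ + 1) * (‖c‖ + 1)) := h1.trans (mul_le_mul_of_nonneg_left h3 hu.le)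
  have h6 : (‖w‖ + 1) * (‖c‖ + 1) ≤ (‖w - c‖ + B) * B := by
    apply mul_le_mul
    · linarith
    · linarith
    · positivity
    · have := norm_nonneg (w - c)
      linarith
  have h7 : ‖w - c‖ ≤ u * ((‖w - c‖ + B) * B) := h5.trans (mul_le_mul_of_nonneg_left h6 hu.le)
  have h8 : u * ((‖w - c‖ + B) * B) ≤ ‖w - c‖ / 2 + u * B ^ 2 := by
    have h9 : u * ((‖w - c‖ + B) * B) = ‖w - c‖ * (u * B) + u * B ^ 2 := by ring
    rw [h9]
    have := mul_le_mul_of_nonneg_left huB (norm_nonneg (w - c))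
    linarith
  rw [mem_ball, dist_eq_norm]
  have h10 : 0 < u * B ^ 2 := by positivity
  linarith

theorem cho_meas (c : ℂ) : Measurable fun w : ℂ => cho (w, 1) (c, 1) := by
  have h2 : (fun w : ℂ => cho (w, 1) (c, 1)) =
      fun w : ℂ => ‖w - c‖ / Real.sqrt ((‖w‖ ^ 2 + 1) * (‖c‖ ^ 2 + 1)) := by
    funext w
    unfold cho cr N2
    simp only [mul_one, one_mul, norm_one, one_pow]
  rw [h2]
  apply Measurable.div
  · exact (continuous_id.sub continuous_const).norm.measurable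
  · apply Continuous.measurable
    apply Continuous.sqrt
    exact ((continuous_norm.pow 2).add continuous_const).mul continuous_const

/-! ### The measure -/

/-- The measure with density `|H|`. -/
noncomputable def nu (H : ℂ → ℂ) : Measure ℂ := volume.withDensity fun z => ‖H z‖ₑ

theorem nu_apply (H : ℂ → ℂ) (A : Set ℂ) (hA : MeasurableSet A) :
    nu H A = ∫⁻ w in A, ‖H w‖ₑ := withDensity_apply _ hA

theorem nu_ac (H : ℂ → ℂ) : nu H ≪ volume := withDensity_absolutelyContinuous _ _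

theorem nu_inv {d : ℕ} (x : CV d) (H : ℂ → ℂ) (hE : Equ x H) (n : ℕ) (A : Set ℂ)
    (hA : MeasurableSet A) : nu H ((pf x)^[n] ⁻¹' A) = nu H A := by
  rw [nu_apply H A hA, nu_apply H _ (((pf_meas x).iterate n) hA)]
  exact hE.2 n A hA

theorem nu_bad {d : ℕ} (hd : 2 ≤ d) (x : CV d) (hx : ND x) (H : ℂ → ℂ) (hE : Equ x H) :
    nu H {z | ∃ m : ℕ, (pol x 1).eval ((pf x)^[m] z) = 0} = 0 := by
  have h1 : {z | ∃ m : ℕ, (pol x 1).eval ((pf x)^[m] z) = 0} =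
      ⋃ m : ℕ, (pf x)^[m] ⁻¹' {w | (pol x 1).eval w = 0} := by
    ext z
    simp only [mem_ofPred_eq, mem_iUnion, mem_preimage]
  rw [h1]
  apply measure_iUnion_null
  intro m
  have hfin : {w : ℂ | (pol x 1).eval w = 0}.Finite := by
    apply (pol x 1).roots.toFinset.finite_toSet.subset
    intro w hw
    rw [Finset.mem_coe, Multiset.mem_toFinset, mem_roots (Q_ne hd x hx)]
    exact hw
  rw [nu_inv x H hE m _ hfin.measurableSet]
  exact nu_ac H (hfin.measure_zero _)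

/-- The measure is not zero and finite. -/
theorem nu_univ_ne (H : ℂ → ℂ) (hm : Measurable H) (hz : ¬ ∀ᵐ z : ℂ, H z = 0) :
    nu H univ ≠ 0 := by
  intro h
  apply hz
  rw [nu_apply H _ MeasurableSet.univ, Measure.restrict_univ,
    lintegral_eq_zero_iff hm.enorm] at h
  filter_upwards [h] with z hz'
  have h2 : ‖H z‖ₑ = 0 := hz'
  rwa [enorm_eq_zero] at h2

theorem nu_univ_top (H : ℂ → ℂ) (hi : ∫⁻ z : ℂ, ‖H z‖ₑ ≠ ⊤) : nu H univ ≠ ⊤ := by
  rw [nu_apply H _ MeasurableSet.univ, Measure.restrict_univ]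
  exact hi

/-- There is little mass near infinity. -/
theorem nu_tail (H : ℂ → ℂ) (hi : ∫⁻ z : ℂ, ‖H z‖ₑ ≠ ⊤) (ε : ENNReal) (hε : ε ≠ 0) :
    ∃ L : ℝ, nu H {w : ℂ | L < ‖w‖} ≤ ε := by
  have : IsFiniteMeasure (nu H) := ⟨lt_top_iff_ne_top.mpr (nu_univ_top H hi)⟩
  have h1 : Tendsto (fun n : ℕ => nu H {w : ℂ | (n : ℝ) < ‖w‖}) atTop
      (𝓝 (nu H (⋂ n : ℕ, {w : ℂ | (n : ℝ) < ‖w‖}))) := by
    apply tendsto_measure_iInter_atTop
    · intro n
      exact (measurableSet_lt measurable_const measurable_norm).nullMeasurableSet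
    · intro a b hab w hw
      have hab' : (a : ℝ) ≤ b := by exact_mod_cast hab
      exact lt_of_le_of_lt hab' hw
    · exact ⟨0, measure_ne_top _ _⟩
  have h2 : (⋂ n : ℕ, {w : ℂ | (n : ℝ) < ‖w‖}) = ∅ := by
    rw [eq_empty_iff_forall_notMem]
    intro w hw
    obtain ⟨n, hn⟩ := exists_nat_gt ‖w‖
    have h3 := mem_iInter.mp hw n
    have h4 : (n : ℝ) < ‖w‖ := h3
    linarith
  rw [h2, measure_empty] at h1
  have h3 := (ENNReal.tendsto_nhds_zero.mp h1) ε (pos_iff_ne_zero.mpr hε)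
  obtain ⟨n, hn⟩ := h3.exists
  exact ⟨n, hn⟩

/-! ### The good sets -/

/-- The good points at the time `n`. -/
def GS {d : ℕ} (x : CV d) (S : Finset ℂ) (r q L : ℝ) (n : ℕ) : Set ℂ :=
  {z | (∀ m : ℕ, (pol x 1).eval ((pf x)^[m] z) ≠ 0) ∧ ‖(pf x)^[n] z‖ ≤ L ∧
    ∀ j < n, ∀ c ∈ S, ¬ (cho ((pf x)^[n - 1 - j] z, 1) (c, 1) ^ d ≤ (r * q ^ j) ^ d)}

theorem good_sub {d : ℕ} (x : CV d) (S : Finset ℂ)
    (hS : ∀ c : ℂ × ℂ, c ≠ 0 → wr x c = 0 → ∃ s ∈ S, ∃ a : ℂ, a ≠ 0 ∧ c = a • ((s, 1) : ℂ × ℂ))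
    (r q L C R κ : ℝ) (hCR : C * R = r ^ d) (hκ : κ = q ^ d) (n : ℕ)
    (hH : ∀ z y : ℂ, cr ((hF x)^[n] (z, 1)) (y, 1) = 0 →
      (∃ g, Br x n y R g ∧ cr (g y) (z, 1) = 0) ∨
      ∃ j < n, ∃ c : ℂ × ℂ, c ≠ 0 ∧ wr x c = 0 ∧
        cho ((hF x)^[n - 1 - j] (z, 1)) c ^ d ≤ C * R * κ ^ j) (z : ℂ)
    (hz : z ∈ GS x S r q L n) :
    ∃ y : ℂ, ‖y‖ ≤ L ∧ cr ((hF x)^[n] (z, 1)) (y, 1) = 0 ∧
      ∃ g, Br x n y R g ∧ cr (g y) (z, 1) = 0 := by
  obtain ⟨hz1, hz2, hz3⟩ := hz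
  have hcr : cr ((hF x)^[n] (z, 1)) ((pf x)^[n] z, 1) = 0 := by
    obtain ⟨a, ha, hn⟩ := iter_coord x z n (fun m _ => hz1 m)
    rw [hn, cr_smul_left, cr_self, mul_zero]
  refine ⟨(pf x)^[n] z, hz2, hcr, ?_⟩
  rcases hH z _ hcr with h | ⟨j, hj, c, hc, hwc, hcho⟩
  · exact h
  · exfalso
    obtain ⟨s, hs, b, hb, hcb⟩ := hS c hc hwc
    apply hz3 j hj s hs
    obtain ⟨a, ha, hn⟩ := iter_coord x z (n - 1 - j) (fun m _ => hz1 m)
    rw [hn, hcb, cho_smul a b ha hb, hCR, hκ] at hcho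
    rw [mul_pow, ← pow_mul, Nat.mul_comm j d, pow_mul]
    exact hcho

theorem bad_sub {d : ℕ} (x : CV d) (S : Finset ℂ) (r q L : ℝ) (n : ℕ) :
    (GS x S r q L n)ᶜ ⊆ ({z | ∃ m : ℕ, (pol x 1).eval ((pf x)^[m] z) = 0} ∪
      (pf x)^[n] ⁻¹' {w : ℂ | L < ‖w‖}) ∪
      ⋃ j ∈ Finset.range n, ⋃ c ∈ S,
        (pf x)^[n - 1 - j] ⁻¹' {w : ℂ | cho (w, 1) (c, 1) ^ d ≤ (r * q ^ j) ^ d} := by
  intro z hz
  by_cases h1 : ∃ m : ℕ, (pol x 1).eval ((pf x)^[m] z) = 0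
  · exact Or.inl (Or.inl h1)
  by_cases h2 : L < ‖(pf x)^[n] z‖
  · exact Or.inl (Or.inr h2)
  right
  by_contra h3
  apply hz
  refine ⟨fun m hm => h1 ⟨m, hm⟩, not_lt.mp h2, fun j hj c hc hcho => h3 ?_⟩
  rw [mem_iUnion₂]
  refine ⟨j, Finset.mem_range.mpr hj, ?_⟩
  rw [mem_iUnion₂]
  exact ⟨c, hc, hcho⟩

theorem nu_hits {d : ℕ} (hd : 2 ≤ d) (x : CV d) (H : ℂ → ℂ) (K : ℝ)
    (hF' : Fix x H K) (hE : Equ x H) (S : Finset ℂ) (B r q : ℝ) (hB : ∀ c ∈ S, 1 + ‖c‖ ≤ B)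
    (hr : 0 < r) (hq : 0 < q) (hq1 : q < 1) (hrB : r * B ≤ 1 / 2) (hB0 : 0 ≤ B) (n : ℕ) :
    nu H (⋃ j ∈ Finset.range n, ⋃ c ∈ S,
        (pf x)^[n - 1 - j] ⁻¹' {w : ℂ | cho (w, 1) (c, 1) ^ d ≤ (r * q ^ j) ^ d}) ≤
      ENNReal.ofReal ((S.card * (|K| * (4 * B ^ 2)) * (1 / (1 - q))) * r) := by
  have hqj : ∀ j : ℕ, q ^ j ≤ 1 := fun j => pow_le_one₀ hq.le hq1.le
  have hone : ∀ (m j : ℕ), ∀ c ∈ S,
      nu H ((pf x)^[m] ⁻¹' {w : ℂ | cho (w, 1) (c, 1) ^ d ≤ (r * q ^ j) ^ d}) ≤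
      ENNReal.ofReal (|K| * (4 * B ^ 2 * (r * q ^ j))) := by
    intro m j c hc
    have hu : 0 < r * q ^ j := by positivity
    have huB : r * q ^ j * B ≤ 1 / 2 := by
      have h1 : r * q ^ j * B = r * B * q ^ j := by ring
      rw [h1]
      have h2 : r * B * q ^ j ≤ r * B * 1 :=
        mul_le_mul_of_nonneg_left (hqj j) (by positivity)
      linarith
    have hmeas : MeasurableSet {w : ℂ | cho (w, 1) (c, 1) ^ d ≤ (r * q ^ j) ^ d} :=
      measurableSet_le ((cho_meas c).pow_const d) measurable_const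
    rw [nu_inv x H hE m _ hmeas]
    have hBpos : 0 < B := by
      have := hB c hc
      have := norm_nonneg c
      linarith
    have hball : 0 < 4 * B ^ 2 * (r * q ^ j) := by positivity
    calc nu H {w : ℂ | cho (w, 1) (c, 1) ^ d ≤ (r * q ^ j) ^ d}
        ≤ nu H (ball c (4 * B ^ 2 * (r * q ^ j))) :=
          measure_mono (disc_sub d (by omega) c B (r * q ^ j) (hB c hc) hu huB)
      _ = ∫⁻ w in ball c (4 * B ^ 2 * (r * q ^ j)), ‖H w‖ₑ := nu_apply H _ measurableSet_ball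
      _ ≤ ENNReal.ofReal (K * (4 * B ^ 2 * (r * q ^ j))) := hF'.sm c _ hball
      _ ≤ ENNReal.ofReal (|K| * (4 * B ^ 2 * (r * q ^ j))) :=
          ENNReal.ofReal_le_ofReal (mul_le_mul_of_nonneg_right (le_abs_self K) hball.le)
  calc nu H (⋃ j ∈ Finset.range n, ⋃ c ∈ S,
        (pf x)^[n - 1 - j] ⁻¹' {w : ℂ | cho (w, 1) (c, 1) ^ d ≤ (r * q ^ j) ^ d})
      ≤ ∑ j ∈ Finset.range n, nu H (⋃ c ∈ S,
        (pf x)^[n - 1 - j] ⁻¹' {w : ℂ | cho (w, 1) (c, 1) ^ d ≤ (r * q ^ j) ^ d}) :=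
        measure_biUnion_finset_le _ _
    _ ≤ ∑ j ∈ Finset.range n, ∑ c ∈ S,
        nu H ((pf x)^[n - 1 - j] ⁻¹' {w : ℂ | cho (w, 1) (c, 1) ^ d ≤ (r * q ^ j) ^ d}) :=
        Finset.sum_le_sum fun j _ => measure_biUnion_finset_le _ _
    _ ≤ ∑ j ∈ Finset.range n, ∑ _c ∈ S, ENNReal.ofReal (|K| * (4 * B ^ 2 * (r * q ^ j))) :=
        Finset.sum_le_sum fun j _ => Finset.sum_le_sum fun c hc => hone _ j c hc
    _ = ENNReal.ofReal (∑ j ∈ Finset.range n, ∑ _c ∈ S, |K| * (4 * B ^ 2 * (r * q ^ j))) := by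
        rw [ENNReal.ofReal_sum_of_nonneg]
        · apply Finset.sum_congr rfl
          intro j _
          rw [ENNReal.ofReal_sum_of_nonneg]
          intro c _
          positivity
        · intro j _
          apply Finset.sum_nonneg
          intro c _
          positivity
    _ ≤ ENNReal.ofReal ((S.card * (|K| * (4 * B ^ 2)) * (1 / (1 - q))) * r) := by
        apply ENNReal.ofReal_le_ofReal
        have e1 : ∑ j ∈ Finset.range n, ∑ _c ∈ S, |K| * (4 * B ^ 2 * (r * q ^ j)) =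
            (S.card * (|K| * (4 * B ^ 2)) * r) * ∑ j ∈ Finset.range n, q ^ j := by
          rw [Finset.mul_sum]
          apply Finset.sum_congr rfl
          intro j _
          rw [Finset.sum_const, nsmul_eq_mul]
          ring
        rw [e1]
        have e2 : ∑ j ∈ Finset.range n, q ^ j ≤ 1 / (1 - q) := by
          rw [le_div_iff₀ (by linarith), geom_sum_mul_neg]
          have := pow_nonneg hq.le n
          linarith
        calc (S.card * (|K| * (4 * B ^ 2)) * r) * ∑ j ∈ Finset.range n, q ^ j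
            ≤ (S.card * (|K| * (4 * B ^ 2)) * r) * (1 / (1 - q)) :=
              mul_le_mul_of_nonneg_left e2 (by positivity)
          _ = (S.card * (|K| * (4 * B ^ 2)) * (1 / (1 - q))) * r := by ring

/-- The measure of the complement of an upper limit. -/
theorem limsup_compl (ν : Measure ℂ) (G : ℕ → Set ℂ) (ε : ENNReal) (h : ∀ n, ν (G n)ᶜ ≤ ε) :
    ν {z | ∃ᶠ n in atTop, z ∈ G n}ᶜ ≤ ε := by
  have h1 : {z | ∃ᶠ n in atTop, z ∈ G n}ᶜ ⊆ ⋃ N : ℕ, {z | ∀ n ≥ N, z ∉ G n} := by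
    intro z hz
    have h2 : ∀ᶠ n in atTop, z ∉ G n := not_frequently.mp hz
    obtain ⟨N, hN⟩ := eventually_atTop.mp h2
    exact mem_iUnion.mpr ⟨N, hN⟩
  refine (measure_mono h1).trans ?_
  rw [Monotone.measure_iUnion]
  · apply iSup_le
    intro N
    refine (measure_mono ?_).trans (h N)
    intro z hz
    exact hz N le_rfl
  · intro a b hab z hz n hn
    exact hz n (le_trans hab hn)

theorem t_CON : S_CON := by
  intro d x H K hd hx hN hFx hE hHIT hz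
  obtain ⟨C, hC, κ, hκ0, hκ1, R₁, hR₁, hHit⟩ := hHIT
  obtain ⟨S, hS⟩ := crit hd x hN
  obtain ⟨B, hB1, hB⟩ : ∃ B : ℝ, 1 ≤ B ∧ ∀ c ∈ S, 1 + ‖c‖ ≤ B := by
    refine ⟨1 + ∑ c ∈ S, ‖c‖, ?_, ?_⟩
    · have : 0 ≤ ∑ c ∈ S, ‖c‖ := Finset.sum_nonneg fun c _ => norm_nonneg c
      linarith
    · intro c hc
      have := Finset.single_le_sum (f := fun c : ℂ => ‖c‖) (fun c _ => norm_nonneg c) hc
      linarith
  have hI0 := nu_univ_ne H hFx.meas hz
  have hI1 := nu_univ_top H hFx.int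
  have hIpos : 0 < (nu H univ).toReal := ENNReal.toReal_pos hI0 hI1
  set I : ℝ := (nu H univ).toReal with hI
  -- the root of `κ`
  have hd0 : (d : ℝ) ≠ 0 := by
    have : (2 : ℝ) ≤ d := by exact_mod_cast hd
    linarith
  obtain ⟨q, hq0, hq1, hqd⟩ : ∃ q : ℝ, 0 < q ∧ q < 1 ∧ κ = q ^ d := by
    refine ⟨κ ^ ((d : ℝ)⁻¹), Real.rpow_pos_of_pos hκ0 _, ?_, ?_⟩
    · apply Real.rpow_lt_one hκ0.le hκ1
      positivity
    · rw [← Real.rpow_natCast, ← Real.rpow_mul hκ0.le, inv_mul_cancel₀ hd0, Real.rpow_one]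
  set A : ℝ := S.card * (|K| * (4 * B ^ 2)) * (1 / (1 - q)) with hA
  have hA0 : 0 ≤ A := by
    have : 0 < 1 - q := by linarith
    positivity
  set r : ℝ := min (min (1 / (2 * B)) (I / (4 * (A + 1)))) (min 1 (C * R₁)) with hr
  have hr0 : 0 < r := by
    apply lt_min
    · apply lt_min
      · positivity
      · positivity
    · apply lt_min one_pos
      positivity
  have hr1 : r ≤ 1 := (min_le_right _ _).trans (min_le_left _ _)
  have hr2 : r ≤ C * R₁ := (min_le_right _ _).trans (min_le_right _ _)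
  have hr3 : r ≤ 1 / (2 * B) := (min_le_left _ _).trans (min_le_left _ _)
  have hr4 : r ≤ I / (4 * (A + 1)) := (min_le_left _ _).trans (min_le_right _ _)
  have hrB : r * B ≤ 1 / 2 := by
    have h1 : r * B ≤ 1 / (2 * B) * B := mul_le_mul_of_nonneg_right hr3 (by linarith)
    have h2 : 1 / (2 * B) * B = 1 / 2 := by field_simp
    linarith
  have hAr : A * r ≤ I / 4 := by
    have h1 : A * r ≤ A * (I / (4 * (A + 1))) := mul_le_mul_of_nonneg_left hr4 hA0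
    have h2 : A * (I / (4 * (A + 1))) ≤ I / 4 := by
      rw [mul_div_assoc', div_le_div_iff₀ (by positivity) (by norm_num)]
      nlinarith
    linarith
  have hR0 : 0 < r ^ d / C := by positivity
  have hR1 : r ^ d / C ≤ R₁ := by
    rw [div_le_iff₀ hC]
    have h1 : r ^ d ≤ r ^ 1 := pow_le_pow_of_le_one hr0.le hr1 (by omega)
    rw [pow_one] at h1
    linarith [mul_comm C R₁]
  have hCR : C * (r ^ d / C) = r ^ d := by field_simp
  obtain ⟨L, hL⟩ := nu_tail H hFx.int (ENNReal.ofReal (I / 4)) (by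
    rw [ne_eq, ENNReal.ofReal_eq_zero, not_le]
    positivity)
  have hG : ∀ n, nu H (GS x S r q L n)ᶜ ≤ ENNReal.ofReal (I / 2) := by
    intro n
    refine (measure_mono (bad_sub x S r q L n)).trans ?_
    have h1 : nu H ({z | ∃ m : ℕ, (pol x 1).eval ((pf x)^[m] z) = 0} ∪
        (pf x)^[n] ⁻¹' {w : ℂ | L < ‖w‖}) ≤ ENNReal.ofReal (I / 4) := by
      refine (measure_union_le _ _).trans ?_
      rw [nu_bad hd x hx H hE, zero_add,
        nu_inv x H hE n _ (measurableSet_lt measurable_const measurable_norm)]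
      exact hL
    have h2 := (nu_hits hd x H K hFx hE S B r q hB hr0 hq0 hq1 hrB (by linarith) n).trans
      (ENNReal.ofReal_le_ofReal hAr)
    refine (measure_union_le _ _).trans ((add_le_add h1 h2).trans ?_)
    rw [← ENNReal.ofReal_add (by positivity) (by positivity)]
    apply ENNReal.ofReal_le_ofReal
    linarith
  have hT := limsup_compl (nu H) (GS x S r q L) _ hG
  set T : Set ℂ := {z | ∃ᶠ n in atTop, z ∈ GS x S r q L n} with hTdef
  have hT0 : nu H T ≠ 0 := by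
    intro h
    have h1 : nu H univ ≤ nu H T + nu H Tᶜ := by
      rw [← union_compl_self T]
      exact measure_union_le _ _
    rw [h, zero_add] at h1
    have h2 : nu H univ ≤ ENNReal.ofReal (I / 2) := h1.trans hT
    have h3 : nu H univ = ENNReal.ofReal I := (ENNReal.ofReal_toReal hI1).symm
    rw [h3, ENNReal.ofReal_le_ofReal_iff (by positivity)] at h2
    linarith
  refine ⟨r ^ d / C, hR0, L, ?_⟩
  intro hvol
  apply hT0
  have hsub : T ⊆ {z : ℂ | H z ≠ 0 ∧ z ∈ Con x (r ^ d / C) L} ∪ {z : ℂ | H z = 0} := by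
    intro z hzT
    by_cases h0 : H z = 0
    · exact Or.inr h0
    · refine Or.inl ⟨h0, ?_⟩
      have h1 : ∃ᶠ n in atTop, z ∈ GS x S r q L n := hzT
      exact h1.mono fun n hn => good_sub x S hS r q L C (r ^ d / C) κ hCR hqd n
        (fun z y hzy => hHit (r ^ d / C) hR0 hR1 n z y hzy) z hn
  refine measure_mono_null hsub (measure_union_null (nu_ac H hvol) ?_)
  have hmz : MeasurableSet {z : ℂ | H z = 0} := hFx.meas (measurableSet_singleton 0)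
  rw [nu_apply H _ hmz]
  apply setLIntegral_eq_zero hmz
  intro z hz'
  have h1 : H z = 0 := hz'
  show ‖H z‖ₑ = 0
  rw [h1, enorm_zero]

end Pool.Agent.H980.HY211
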