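import Pool.Agent.H211.HY.Stm3
import Pool.Agent.H263.HY211.DCR
import Pool.Agent.H400.HY211.TRIP
import Pool.Agent.H747.HY211.CHO

/-!
# HY211 JUL: basic facts on the Julia set (helper980)
-/

set_option autoImplicit false

open Topology Filter Metric Set

namespace Pool.Agent.H980.HY211

open Pool.Agent.H790R3.RB Pool.Agent.H211.HY
open Pool.Agent.H263.HY211 (rot rot_ne cho_rot param cho_le_of_spd N2_pos N2_rot cr_rot lagrange)

/-- the speed of the line -/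
theorem spd_line {p : ℂ × ℂ} (hp : p ≠ 0) (w : ℂ) :
    spd (fun z : ℂ => p + z • rot p) w = 1 / (1 + ‖w‖ ^ 2) := by
  unfold spd
  have h1 : deriv (fun z : ℂ => p + z • rot p) w = rot p := by
    have : HasDerivAt (fun z : ℂ => p + z • rot p) ((1 : ℂ) • rot p) w :=
      ((hasDerivAt_id w).smul_const (rot p)).const_add p
    rw [this.deriv, one_smul]
  rw [h1, N2_rot]
  have h2 : cr (rot p) (p + w • rot p) = -((N2 p : ℝ) : ℂ) := by
    have h3 := cr_rot p 1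
    rw [one_mul] at h3
    rw [← h3]
    unfold cr
    simp only [Prod.fst_add, Prod.snd_add, Prod.smul_fst, Prod.smul_snd, smul_eq_mul]
    ring
  have hN := N2_pos hp
  rw [h2, norm_neg, Complex.norm_real, Real.norm_of_nonneg hN.le]
  have h4 : (0 : ℝ) < 1 + ‖w‖ ^ 2 := by positivity
  field_simp

theorem sdn_nonneg {d : ℕ} (x : CV d) (n : ℕ) (p : ℂ × ℂ) : 0 ≤ sdn x n p := by
  unfold sdn
  refine Finset.prod_nonneg fun j _ => ?_
  unfold sd N2
  positivity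

theorem line_diff (p : ℂ × ℂ) : Differentiable ℂ (fun w : ℂ => p + w • rot p) := by
  fun_prop

theorem it_line {d : ℕ} (x : CV d) (p : ℂ × ℂ) (n : ℕ) :
    Differentiable ℂ (fun w : ℂ => (hF x)^[n] (p + w • rot p)) := by
  have h1 := hF_iter_differentiable d n
  have h2 : Differentiable ℂ (fun w : ℂ => ((x, p + w • rot p) : CV d × (ℂ × ℂ))) := by
    fun_prop
  exact h1.comp h2

/-- small chordal distance: the quotient coordinate is bounded -/
theorem quot_le {u v : ℂ × ℂ} (hu : u ≠ 0) (hv : v ≠ 0) (h : cho u v < 1 / 2) :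
    v.1 * (starRingEnd ℂ) u.1 + v.2 * (starRingEnd ℂ) u.2 ≠ 0 ∧
    ‖cr u v / (v.1 * (starRingEnd ℂ) u.1 + v.2 * (starRingEnd ℂ) u.2)‖ ≤ 1 := by
  have hU := N2_pos hu
  have hV := N2_pos hv
  have hUV : 0 < N2 u * N2 v := mul_pos hU hV
  have hs : 0 < √(N2 u * N2 v) := Real.sqrt_pos.mpr hUV
  have hss : √(N2 u * N2 v) ^ 2 = N2 u * N2 v := Real.sq_sqrt hUV.le
  have hL := lagrange u v
  set α := v.1 * (starRingEnd ℂ) u.1 + v.2 * (starRingEnd ℂ) u.2 with hα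
  have h1 : ‖cr u v‖ < 1 / 2 * √(N2 u * N2 v) := by
    unfold cho at h
    rwa [div_lt_iff₀ hs] at h
  have h2 : ‖cr u v‖ ^ 2 ≤ 1 / 4 * (N2 u * N2 v) := by
    calc ‖cr u v‖ ^ 2 ≤ (1 / 2 * √(N2 u * N2 v)) ^ 2 :=
          pow_le_pow_left₀ (norm_nonneg _) h1.le _
      _ = _ := by rw [mul_pow, hss]; ring
  have h3 : ‖cr u v‖ ^ 2 ≤ ‖α‖ ^ 2 := by linarith
  have h4 : 0 < ‖α‖ ^ 2 := by linarith
  have h5 : α ≠ 0 := by
    intro h0
    rw [h0, norm_zero] at h4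
    norm_num at h4
  refine ⟨h5, ?_⟩
  rw [norm_div, div_le_one (norm_pos_iff.mpr h5)]
  exact (pow_le_pow_iff_left₀ (norm_nonneg _) (norm_nonneg _) two_ne_zero).1 h3

/-- the speed is at most the derivative of the quotient coordinate -/
theorem spd_le_deriv {h : ℂ → ℂ × ℂ} {w : ℂ} (hh : DifferentiableAt ℂ h w) {u : ℂ × ℂ} (hu : u ≠ 0)
    (hw : h w ≠ 0)
    (hα : (h w).1 * (starRingEnd ℂ) u.1 + (h w).2 * (starRingEnd ℂ) u.2 ≠ 0) :
    spd h w ≤ ‖deriv (fun z => cr u (h z) /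
      ((h z).1 * (starRingEnd ℂ) u.1 + (h z).2 * (starRingEnd ℂ) u.2)) w‖ := by
  have hU := N2_pos hu
  have hV := N2_pos hw
  have hL := lagrange u (h w)
  have hd := hh.hasDerivAt
  have d1 : HasDerivAt (fun z => (h z).1) (deriv h w).1 w :=
    (ContinuousLinearMap.fst ℂ ℂ ℂ).hasFDerivAt.comp_hasDerivAt w hd
  have d2 : HasDerivAt (fun z => (h z).2) (deriv h w).2 w :=
    (ContinuousLinearMap.snd ℂ ℂ ℂ).hasFDerivAt.comp_hasDerivAt w hd
  have d3 : HasDerivAt (fun z => cr u (h z)) (u.1 * (deriv h w).2 - u.2 * (deriv h w).1) w :=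
    (d2.const_mul u.1).sub (d1.const_mul u.2)
  have d4 : HasDerivAt (fun z => (h z).1 * (starRingEnd ℂ) u.1 + (h z).2 * (starRingEnd ℂ) u.2)
      ((deriv h w).1 * (starRingEnd ℂ) u.1 + (deriv h w).2 * (starRingEnd ℂ) u.2) w :=
    (d1.mul_const _).add (d2.mul_const _)
  have d5 := (d3.div d4 hα).deriv
  have e5 : deriv (fun z => cr u (h z) /
      ((h z).1 * (starRingEnd ℂ) u.1 + (h z).2 * (starRingEnd ℂ) u.2)) w =
      ((u.1 * (deriv h w).2 - u.2 * (deriv h w).1) *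
        ((h w).1 * (starRingEnd ℂ) u.1 + (h w).2 * (starRingEnd ℂ) u.2) -
        cr u (h w) * ((deriv h w).1 * (starRingEnd ℂ) u.1 + (deriv h w).2 * (starRingEnd ℂ) u.2)) /
        ((h w).1 * (starRingEnd ℂ) u.1 + (h w).2 * (starRingEnd ℂ) u.2) ^ 2 := d5
  have hN : ((N2 u : ℝ) : ℂ) = u.1 * (starRingEnd ℂ) u.1 + u.2 * (starRingEnd ℂ) u.2 := by
    unfold N2
    push_cast
    rw [← Complex.mul_conj', ← Complex.mul_conj']
  have e6 : (u.1 * (deriv h w).2 - u.2 * (deriv h w).1) *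
        ((h w).1 * (starRingEnd ℂ) u.1 + (h w).2 * (starRingEnd ℂ) u.2) -
        cr u (h w) * ((deriv h w).1 * (starRingEnd ℂ) u.1 + (deriv h w).2 * (starRingEnd ℂ) u.2) =
      -(((N2 u : ℝ) : ℂ) * cr (deriv h w) (h w)) := by
    rw [hN]
    unfold cr
    ring
  rw [e5, e6, norm_div, norm_neg, norm_mul, Complex.norm_real, Real.norm_of_nonneg hU.le, norm_pow]
  set α := (h w).1 * (starRingEnd ℂ) u.1 + (h w).2 * (starRingEnd ℂ) u.2 with hαd
  have hα0 : 0 < ‖α‖ := norm_pos_iff.mpr hα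
  have hle : ‖α‖ ^ 2 ≤ N2 u * N2 (h w) := by
    have := sq_nonneg ‖cr u (h w)‖
    linarith
  unfold spd
  rw [div_le_div_iff₀ hV (by positivity)]
  calc ‖cr (deriv h w) (h w)‖ * ‖α‖ ^ 2 ≤ ‖cr (deriv h w) (h w)‖ * (N2 u * N2 (h w)) := by gcongr
    _ = N2 u * ‖cr (deriv h w) (h w)‖ * N2 (h w) := by ring

/-- derivatives are bounded near the points which are not in the Julia set -/
theorem bdd (hcho : S_CHO) {d : ℕ} {x : CV d} (hd : 2 ≤ d) (hx : ND x) {p : ℂ × ℂ} (hp : p ≠ 0)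
    (hJ : ¬ Jul x p) : ∃ δ > (0 : ℝ), ∃ K : ℝ, ∀ q : ℂ × ℂ, q ≠ 0 → cho p q < δ →
      ∀ n : ℕ, sdn x n q ≤ K := by
  obtain ⟨hspd, hsm, -, -, -⟩ := hcho.2.2.2.2 d x hd hx
  unfold Jul at hJ
  push Not at hJ
  obtain ⟨δ₀, hδ₀, h0⟩ := hJ (1 / 2) (by norm_num)
  obtain ⟨δ, hδd⟩ : ∃ δ : ℝ, δ = min δ₀ 1 := ⟨_, rfl⟩
  have hδ : 0 < δ := by rw [hδd]; positivity
  have hδ0 : δ ≤ δ₀ := by rw [hδd]; exact min_le_left _ _
  have hδ1 : δ ≤ 1 := by rw [hδd]; exact min_le_right _ _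
  have hne : ∀ (n : ℕ) (w : ℂ), (hF x)^[n] (p + w • rot p) ≠ 0 := fun n w =>
    hx.iter_ne n (rot_ne hp w)
  have hq := fun (n : ℕ) (w : ℂ) (hw : w ∈ ball (0 : ℂ) δ) =>
    quot_le (hx.iter_ne n hp) (hne n w) (h0 (p + w • rot p) (rot_ne hp w)
      (lt_of_lt_of_le (lt_of_le_of_lt (cho_rot hp w) (mem_ball_zero_iff.1 hw)) hδ0) n)
  have key : ∀ (n : ℕ) (w : ℂ), ‖w‖ < δ / 2 → sdn x n (p + w • rot p) ≤ 8 / δ := by
    intro n w hw
    have hw1 : w ∈ ball (0 : ℂ) δ := by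
      rw [mem_ball_zero_iff]
      linarith
    have h1 := spd_le_deriv ((it_line x p n) w) (hx.iter_ne n hp) (hne n w) (hq n w hw1).1
    have hsub : closedBall w (δ / 4) ⊆ ball (0 : ℂ) δ := by
      intro z hz
      rw [mem_closedBall, dist_eq_norm] at hz
      rw [mem_ball_zero_iff]
      calc ‖z‖ = ‖(z - w) + w‖ := by ring_nf
        _ ≤ ‖z - w‖ + ‖w‖ := norm_add_le _ _
        _ < δ := by linarith
    have hdiff : DifferentiableOn ℂ (fun z : ℂ => cr ((hF x)^[n] p) ((hF x)^[n] (p + z • rot p)) /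
        (((hF x)^[n] (p + z • rot p)).1 * (starRingEnd ℂ) ((hF x)^[n] p).1 +
          ((hF x)^[n] (p + z • rot p)).2 * (starRingEnd ℂ) ((hF x)^[n] p).2)) (ball 0 δ) := by
      have f1 := (it_line x p n).fst
      have f2 := (it_line x p n).snd
      refine DifferentiableOn.div ?_ ?_ (fun z hz => (hq n z hz).1)
      · unfold cr
        exact ((f2.const_mul _).sub (f1.const_mul _)).differentiableOn
      · exact ((f1.mul_const _).add (f2.mul_const _)).differentiableOn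
    have h2 := Complex.norm_deriv_le_of_forall_mem_sphere_norm_le (c := w) (R := δ / 4) (C := 1)
      (by positivity) (f := fun z : ℂ => cr ((hF x)^[n] p) ((hF x)^[n] (p + z • rot p)) /
        (((hF x)^[n] (p + z • rot p)).1 * (starRingEnd ℂ) ((hF x)^[n] p).1 +
          ((hF x)^[n] (p + z • rot p)).2 * (starRingEnd ℂ) ((hF x)^[n] p).2))
      ((hdiff.mono hsub).diffContOnCl_ball (Subset.refl _)) (fun z hz =>
        (hq n z (hsub (sphere_subset_closedBall hz))).2)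
    have h3 := hspd (fun z : ℂ => p + z • rot p) w n (line_diff p w) (rot_ne hp w)
    rw [spd_line hp w] at h3
    have h4 : sdn x n (p + w • rot p) * (1 / (1 + ‖w‖ ^ 2)) ≤ 1 / (δ / 4) := by
      rw [← h3]
      exact h1.trans h2
    have h5 : (1 : ℝ) / 2 ≤ 1 / (1 + ‖w‖ ^ 2) := by
      apply one_div_le_one_div_of_le (by positivity)
      have : ‖w‖ ^ 2 ≤ 1 := pow_le_one₀ (norm_nonneg _) (by linarith)
      linarith
    have h6 := sdn_nonneg x n (p + w • rot p)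
    have h7 : sdn x n (p + w • rot p) * (1 / 2) ≤ 1 / (δ / 4) := by
      refine le_trans ?_ h4
      gcongr
    have h8 : 1 / (δ / 4) = 4 / δ := by field_simp
    have h9 : 8 / δ = 2 * (4 / δ) := by ring
    rw [h9]
    linarith
  refine ⟨min (1 / 2) (δ / 4), by positivity, 8 / δ, ?_⟩
  intro q hq0 hpq n
  obtain ⟨w, a, ha, hqa, hwn⟩ := param hp hq0 (hpq.le.trans (min_le_left _ _))
  rw [hqa, hsm n (p + w • rot p) a ha (rot_ne hp w)]
  apply key
  have := hpq.trans_le (min_le_right _ _)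
  linarith

/-- bounded derivatives imply equicontinuity -/
theorem eqc (hcho : S_CHO) {d : ℕ} {x : CV d} (hd : 2 ≤ d) (hx : ND x) {q : ℂ × ℂ} (hq : q ≠ 0)
    {R K : ℝ} (hR : 0 < R) (h : ∀ q' : ℂ × ℂ, q' ≠ 0 → cho q q' < R → ∀ n : ℕ, sdn x n q' ≤ K) :
    ¬ Jul x q := by
  obtain ⟨tri, -, -, csm, h5⟩ := hcho
  obtain ⟨hspd, -, -, -, -⟩ := h5 d x hd hx
  rintro ⟨ε, hε, hJ⟩
  obtain ⟨K', hK'⟩ : ∃ K' : ℝ, K' = max K 1 := ⟨_, rfl⟩
  have hK1 : 1 ≤ K' := by rw [hK']; exact le_max_right _ _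
  have hK2 : K ≤ K' := by rw [hK']; exact le_max_left _ _
  have hK0 : 0 < K' := by linarith
  obtain ⟨q', hq', hc, n, hn⟩ := hJ (min (1 / 2) (min (R / 2) (ε / (2 * K')))) (by positivity)
  have hc1 : cho q q' ≤ 1 / 2 := (hc.trans_le (min_le_left _ _)).le
  have hc2 : cho q q' < R / 2 := hc.trans_le ((min_le_right _ _).trans (min_le_left _ _))
  have hc3 : cho q q' < ε / (2 * K') := hc.trans_le ((min_le_right _ _).trans (min_le_right _ _))
  obtain ⟨w, a, ha, hqa, hwn⟩ := param hq hq' hc1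
  have hwb : w ∈ ball (0 : ℂ) R := by
    rw [mem_ball_zero_iff]
    linarith
  have hsp : ∀ z ∈ ball (0 : ℂ) R, spd (fun w : ℂ => (hF x)^[n] (q + w • rot q)) z ≤ K' := by
    intro z hz
    have h3 := hspd (fun z : ℂ => q + z • rot q) z n (line_diff q z) (rot_ne hq z)
    rw [spd_line hq z] at h3
    rw [h3]
    have h4 := h (q + z • rot q) (rot_ne hq z)
      (lt_of_le_of_lt (cho_rot hq z) (mem_ball_zero_iff.1 hz)) n
    have h5 : 1 / (1 + ‖z‖ ^ 2) ≤ 1 := by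
      rw [div_le_one (by positivity)]
      have := sq_nonneg ‖z‖
      linarith
    have h6 := sdn_nonneg x n (q + z • rot q)
    calc sdn x n (q + z • rot q) * (1 / (1 + ‖z‖ ^ 2)) ≤ sdn x n (q + z • rot q) * 1 := by gcongr
      _ = sdn x n (q + z • rot q) := mul_one _
      _ ≤ K' := h4.trans hK2
  have hle := cho_le_of_spd tri (it_line x q n).differentiableOn
    (fun z _ => hx.iter_ne n (rot_ne hq z)) hsp hwb
  have e1 : (hF x)^[n] (q + (0 : ℂ) • rot q) = (hF x)^[n] q := by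
    rw [zero_smul, add_zero]
  have e2 : cho ((hF x)^[n] q) ((hF x)^[n] q') =
      cho ((hF x)^[n] q) ((hF x)^[n] (q + w • rot q)) := by
    rw [hqa, hF_iter_smul]
    have := csm ((hF x)^[n] q) ((hF x)^[n] (q + w • rot q)) 1 (a ^ (d ^ n)) one_ne_zero
      (pow_ne_zero _ ha)
    rwa [one_smul] at this
  have hle' : cho ((hF x)^[n] q) ((hF x)^[n] (q + w • rot q)) ≤ K' * ‖w‖ := by
    rw [← e1]
    exact hle
  rw [e2] at hn
  have h6 : K' * ‖w‖ ≤ K' * (2 * cho q q') := by gcongr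
  have h7 : K' * (2 * cho q q') < ε := by
    rw [lt_div_iff₀ (by positivity)] at hc3
    linarith
  linarith

/-- the Julia set consists of directions -/
theorem jul_par (hcho : S_CHO) {d : ℕ} {x : CV d} {p q : ℂ × ℂ} (hp : p ≠ 0)
    (hq : q ≠ 0) (h : cr p q = 0) (hJ : Jul x p) : Jul x q := by
  obtain ⟨-, -, -, csm, -⟩ := hcho
  obtain ⟨t, ht, rfl⟩ := (cr_eq_zero_iff hp hq).mp h
  obtain ⟨ε, hε, hJ⟩ := hJ
  refine ⟨ε, hε, fun δ hδ => ?_⟩
  obtain ⟨r, hr, hc, n, hn⟩ := hJ δ hδ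
  refine ⟨r, hr, ?_, n, ?_⟩
  · have := csm q r t 1 ht one_ne_zero
    rw [one_smul] at this
    rwa [this] at hc
  · rw [hF_iter_smul] at hn
    have := csm ((hF x)^[n] q) ((hF x)^[n] r) (t ^ (d ^ n)) 1 (pow_ne_zero _ ht) one_ne_zero
    rw [one_smul] at this
    rwa [this] at hn

/-- openness in terms of the chordal distance -/
theorem opn {d : ℕ} (hd : 2 ≤ d) {x : CV d} (hx : ND x) {p : ℂ × ℂ} (hp : p ≠ 0)
    (hcho : S_CHO) {δ : ℝ} (hδ : 0 < δ) : ∃ δ' > (0 : ℝ), ∀ q' : ℂ × ℂ, q' ≠ 0 →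
      cho (hF x p) q' < δ' → ∃ q : ℂ × ℂ, q ≠ 0 ∧ cho p q < δ ∧ cr (hF x q) q' = 0 := by
  have hFp : hF x p ≠ 0 := fun h => hp (hx p h)
  have hcc : ∀ᶠ b in 𝓝 p, cho p b < δ := by
    have h1 := Pool.Agent.H400.HY211.TRIP.cho_cont hp hp
    have h2 : ContinuousAt (fun b : ℂ × ℂ => cho p b) p :=
      ContinuousAt.comp (f := fun b : ℂ × ℂ => (p, b)) (g := fun r : (ℂ × ℂ) × (ℂ × ℂ) => cho r.1 r.2)
        h1 (by fun_prop)
    refine h2.eventually_lt continuousAt_const ?_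
    rw [(hcho.2.2.1 p p hp hp).2 (cr_self p)]
    exact hδ
  obtain ⟨ε, hε, hball⟩ := Metric.eventually_nhds_iff.mp hcc
  have h3 := Pool.Agent.H400.HY211.TRIP.openN (by omega : 1 ≤ d) hx 1 hFp hp (cr_self _) hε
  obtain ⟨η, hη, h4⟩ := Metric.eventually_nhds_iff.mp h3
  obtain ⟨M, hM⟩ : ∃ M : ℝ, M = ‖rot (hF x p)‖ + 1 := ⟨_, rfl⟩
  have hM0 : 0 < M := by
    rw [hM]
    positivity
  refine ⟨min (1 / 2) (η / (2 * M)), by positivity, fun q' hq' hc => ?_⟩
  obtain ⟨w, a, ha, hqa, hwn⟩ := param hFp hq' (hc.le.trans (min_le_left _ _))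
  have hc2 := hc.trans_le (min_le_right _ _)
  have hdist : dist (hF x p + w • rot (hF x p)) (hF x p) < η := by
    rw [dist_eq_norm, add_sub_cancel_left, norm_smul]
    rw [lt_div_iff₀ (by positivity)] at hc2
    calc ‖w‖ * ‖rot (hF x p)‖ ≤ (2 * cho (hF x p) q') * M := by
          have : ‖rot (hF x p)‖ ≤ M := by rw [hM]; linarith
          have h0 := (hcho.2.1 (hF x p) q').2.1
          gcongr
      _ = cho (hF x p) q' * (2 * M) := by ring
      _ < η := hc2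
  obtain ⟨b, hb1, hb2, hb3⟩ := h4 hdist
  refine ⟨b, hb2, hball (by rwa [dist_eq_norm]), ?_⟩
  rw [hqa, cr_smul_right]
  rw [Function.iterate_one] at hb3
  rw [hb3, mul_zero]

theorem jul_image (hcho : S_CHO) {d : ℕ} (hd : 2 ≤ d) {x : CV d} (hx : ND x) {p : ℂ × ℂ}
    (hp : p ≠ 0) : Jul x (hF x p) ↔ Jul x p := by
  obtain ⟨tri, sym, cz, csm, h5⟩ := id hcho
  obtain ⟨-, -, hpar, hne, K, hK⟩ := h5 d x hd hx
  have hFp : hF x p ≠ 0 := fun h => hp (hx p h)
  constructor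
  · intro hJ
    by_contra hno
    unfold Jul at hno
    push Not at hno
    obtain ⟨ε, hε, hJ⟩ := hJ
    obtain ⟨δ, hδ, h1⟩ := hno ε hε
    obtain ⟨δ', hδ', h2⟩ := opn hd hx hp hcho hδ
    obtain ⟨q', hq', hc, n, hn⟩ := hJ δ' hδ'
    obtain ⟨q, hq, hpq, hqq⟩ := h2 q' hq' hc
    have h3 := h1 q hq hpq (n + 1)
    rw [Function.iterate_succ_apply, Function.iterate_succ_apply] at h3
    have hFq : hF x q ≠ 0 := fun h => hq (hx q h)
    have h4 := hpar n _ _ hqq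
    obtain ⟨t, ht, h5⟩ := (cr_eq_zero_iff (hne n _ hFq) (hne n _ hq')).mp h4
    rw [h5] at h3
    have h6 := csm ((hF x)^[n] (hF x p)) ((hF x)^[n] q') 1 t one_ne_zero ht
    rw [one_smul] at h6
    rw [h6] at h3
    linarith
  · intro hJ
    by_contra hno
    unfold Jul at hno
    push Not at hno
    obtain ⟨ε, hε, hJ⟩ := hJ
    obtain ⟨δ, hδ, h1⟩ := hno ε hε
    obtain ⟨K', hK'⟩ : ∃ K' : ℝ, K' = max K 1 := ⟨_, rfl⟩
    have hK1 : 1 ≤ K' := by rw [hK']; exact le_max_right _ _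
    have hK2 : K ≤ K' := by rw [hK']; exact le_max_left _ _
    have hK0 : 0 < K' := by linarith
    obtain ⟨q, hq, hc, n, hn⟩ := hJ (min ε (δ / K')) (by positivity)
    have hc1 := hc.trans_le (min_le_left _ _)
    have hc2 := hc.trans_le (min_le_right _ _)
    cases n with
    | zero =>
      have : ε ≤ cho p q := hn
      linarith
    | succ n =>
      have hFq : hF x q ≠ 0 := fun h => hq (hx q h)
      have h2 : cho (hF x p) (hF x q) < δ := by
        rw [lt_div_iff₀ hK0] at hc2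
        have h3 := (sym p q).2.1
        calc cho (hF x p) (hF x q) ≤ K * cho p q := hK p q hp hq
          _ ≤ K' * cho p q := by gcongr
          _ < δ := by linarith
      have h3 := h1 (hF x q) hFq h2 n
      rw [Function.iterate_succ_apply, Function.iterate_succ_apply] at hn
      linarith

/-- **Basic facts on the Julia set.** -/
theorem jul (hcho : S_CHO) : S_JUL := by
  intro d x hd hx
  refine ⟨?_, fun p hp => jul_image hcho hd hx hp, fun p q hp hq h hJ => jul_par hcho hp hq h hJ,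
    fun p hp hJ => bdd hcho hd hx hp hJ, ?_⟩
  · intro p hp h
    by_contra hJ
    obtain ⟨δ, hδ, K, hK⟩ := bdd hcho hd hx hp hJ
    obtain ⟨q, hq, hpq, hJq⟩ := h (δ / 2) (by positivity)
    refine eqc hcho hd hx hq (R := δ / 2) (K := K) (by positivity) ?_ hJq
    intro q' hq' hc n
    refine hK q' hq' ?_ n
    have := hcho.1 p q q' hp hq hq'
    linarith
  · intro hce c hc hw
    by_contra hJ
    have hFc : hF x c ≠ 0 := fun h => hc (hx c h)
    have hJ2 : ¬ Jul x (hF x c) := fun h => hJ ((jul_image hcho hd hx hc).1 h)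
    obtain ⟨δ, hδ, K, hK⟩ := bdd hcho hd hx hFc hJ2
    obtain ⟨C, hC, μ, hμ, hb⟩ := hce c hc hw
    have ht : Tendsto (fun j : ℕ => C * μ ^ j) atTop atTop :=
      (tendsto_pow_atTop_atTop_of_one_lt hμ).const_mul_atTop hC
    obtain ⟨n, hn⟩ := (ht.eventually_gt_atTop K).exists
    have h1 := hK (hF x c) hFc (by
      rw [(hcho.2.2.1 _ _ hFc hFc).2 (cr_self _)]
      exact hδ) n
    have h2 := hb n
    linarith

theorem t_JUL : S_JUL := jul Pool.Agent.H747.HY211.t_CHO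

end Pool.Agent.H980.HY211
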