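import Pool.Agent.H211.HY.Stm3
import Pool.Agent.H263.HY211.DCR
import Pool.Agent.H400.HY211.TRIP
import Pool.Agent.H747.HY211.CHO
import Pool.Agent.H746.HY211.LEO
import Pool.Agent.H177.HY211.MM

/-!
# HY211 LEOJ: topological exactness on the Julia set (helper980)

Adapted from `Pool/Agent/H263/HY211/DCR.lean` and `Pool/Agent/H746/HY211/LEO.lean`.
-/

set_option autoImplicit false

open Topology Filter Metric Set

namespace Pool.Agent.H980.HY211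

open Pool.Agent.H790R3.RB Pool.Agent.H211.HY
open Pool.Agent.H263.HY211 (rot rot_ne cho_rot param cho_le_of_spd three wr_zero_of_cr)
open Pool.Agent.H746.HY211 (ex_indep opn it_diff line_diff line_ne N2_pos cho_cont cr_symm)

/-- preimages of critical points are dense in the Julia set -/
theorem dcrj (hcho : S_CHO) (hmm : S_MM) {d : ℕ} {x : CV d} (hd : 2 ≤ d) (hnd : ND x) (hce : CE x)
    {p : ℂ × ℂ} (hp : p ≠ 0) (hJ : Jul x p) {δ : ℝ} (hδ : 0 < δ) :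
    ∃ q : ℂ × ℂ, q ≠ 0 ∧ cho p q < δ ∧ ∃ n : ℕ, wr x ((hF x)^[n] q) = 0 := by
  obtain ⟨tri, -, cz, csm, -⟩ := hcho
  by_contra hno
  push Not at hno
  obtain ⟨e, he, k01, k12, k02⟩ := three hd hnd hce
  have cpos : ∀ a b : ℂ × ℂ, a ≠ 0 → b ≠ 0 → cr a b ≠ 0 → 0 < cho a b := by
    intro a b ha hb hab
    have h1 : 0 ≤ cho a b := by unfold cho; positivity
    exact lt_of_le_of_ne h1 (fun h => hab ((cz a b ha hb).mp h.symm))
  set σ := min (cho (e 0) (e 1)) (min (cho (e 1) (e 2)) (cho (e 0) (e 2))) with hσ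
  have hσ0 : 0 < σ := by
    rw [hσ]
    exact lt_min (cpos _ _ (he 0).1 (he 1).1 k01)
      (lt_min (cpos _ _ (he 1).1 (he 2).1 k12) (cpos _ _ (he 0).1 (he 2).1 k02))
  obtain ⟨K, hK, hspd⟩ := hmm σ hσ0
  -- the iterates omit the three directions
  have omit' : ∀ (n : ℕ) (w : ℂ), w ∈ ball (0 : ℂ) δ → ∀ i,
      cr ((hF x)^[n] (p + w • rot p)) (e i) ≠ 0 := by
    intro n w hw i h
    obtain ⟨hei, m, hm⟩ := he i
    have hq := rot_ne hp w
    rw [mem_ball_zero_iff] at hw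
    have hlt := lt_of_le_of_lt (cho_rot hp w) hw
    have h1 := hno (p + w • rot p) hq hlt (m + n)
    apply h1
    rw [Function.iterate_add_apply]
    have h2 := cr_iter x m (hnd.iter_ne n hq) hei h
    exact wr_zero_of_cr x hd (hnd.iter_ne m (hnd.iter_ne n hq)) (hnd.iter_ne m hei) h2 hm
  have hdiff : ∀ n : ℕ, Differentiable ℂ (fun w : ℂ => (hF x)^[n] (p + w • rot p)) := by
    intro n
    have h1 := hF_iter_differentiable d n
    have h2 : Differentiable ℂ (fun w : ℂ => ((x, p + w • rot p) : CV d × (ℂ × ℂ))) := by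
      fun_prop
    exact h1.comp h2
  have hspeed : ∀ n : ℕ, ∀ v ∈ ball (0 : ℂ) (δ / 2),
      spd (fun w : ℂ => (hF x)^[n] (p + w • rot p)) v ≤ K / (δ / 2) := by
    intro n v hv
    have hsub : ball v (δ / 2) ⊆ ball (0 : ℂ) δ := by
      intro z hz
      rw [mem_ball_zero_iff] at hv ⊢
      rw [mem_ball, dist_eq_norm] at hz
      calc ‖z‖ = ‖(z - v) + v‖ := by ring_nf
        _ ≤ ‖z - v‖ + ‖v‖ := norm_add_le _ _
        _ < δ := by linarith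
    apply hspd (fun w : ℂ => (hF x)^[n] (p + w • rot p)) v (δ / 2) (e 0) (e 1) (e 2)
      (by positivity) (hdiff n).differentiableOn
      (fun z _ => hnd.iter_ne n (rot_ne hp z)) (he 0).1 (he 1).1 (he 2).1
      (min_le_left _ _) ((min_le_right _ _).trans (min_le_left _ _))
      ((min_le_right _ _).trans (min_le_right _ _))
    intro z hz
    exact ⟨omit' n z (hsub hz) 0, omit' n z (hsub hz) 1, omit' n z (hsub hz) 2⟩
  obtain ⟨ε, hε, hJp⟩ := hJ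
  set M := K / (δ / 2) with hM
  have hM0 : 0 < M := by positivity
  obtain ⟨q, hq, hqp, n, hn⟩ := hJp (min (1 / 2) (min (δ / 4) (ε / (2 * M)))) (by positivity)
  have hq1 : cho p q ≤ 1 / 2 := (hqp.trans_le (min_le_left _ _)).le
  have hq2 : cho p q < δ / 4 := hqp.trans_le ((min_le_right _ _).trans (min_le_left _ _))
  have hq3 : cho p q < ε / (2 * M) := hqp.trans_le ((min_le_right _ _).trans (min_le_right _ _))
  obtain ⟨w, a, ha, hqa, hwn⟩ := param hp hq hq1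
  have hwb : w ∈ ball (0 : ℂ) (δ / 2) := by
    rw [mem_ball_zero_iff]
    linarith
  have hle := cho_le_of_spd tri (hdiff n).differentiableOn
    (fun z _ => hnd.iter_ne n (rot_ne hp z)) (hspeed n) hwb
  have e1 : (hF x)^[n] (p + (0 : ℂ) • rot p) = (hF x)^[n] p := by
    rw [zero_smul, add_zero]
  have e2 : cho ((hF x)^[n] p) ((hF x)^[n] q) =
      cho ((hF x)^[n] p) ((hF x)^[n] (p + w • rot p)) := by
    rw [hqa, hF_iter_smul]
    have := csm ((hF x)^[n] p) ((hF x)^[n] (p + w • rot p)) 1 (a ^ (d ^ n)) one_ne_zero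
      (pow_ne_zero _ ha)
    rwa [one_smul] at this
  have hle' : cho ((hF x)^[n] p) ((hF x)^[n] (p + w • rot p)) ≤ M * ‖w‖ := by
    rw [← e1]
    exact hle
  rw [e2] at hn
  have h5 : M * ‖w‖ ≤ M * (2 * cho p q) := by gcongr
  have h6 : M * (2 * cho p q) < ε := by
    rw [lt_div_iff₀ (by positivity)] at hq3
    linarith
  linarith

/-- one disc -/
theorem one_discJ (hCHO : S_CHO) (hMM : S_MM) (hTRIP : S_TRIP) {d : ℕ} {x : CV d} (hd : 2 ≤ d)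
    (hnd : ND x) (hce : CE x) {p₀ : ℂ × ℂ} (hp₀ : p₀ ≠ 0) {δ : ℝ}
    (hdcr : ∃ q : ℂ × ℂ, q ≠ 0 ∧ cho p₀ q < δ ∧ ∃ n : ℕ, wr x ((hF x)^[n] q) = 0) :
    ∃ N : ℕ, ∀ n ≥ N, ∀ a : ℂ × ℂ, a ≠ 0 →
      ∃ q : ℂ × ℂ, q ≠ 0 ∧ cho p₀ q < δ ∧ cr ((hF x)^[n] q) a = 0 := by
  obtain ⟨_, _, _, _, hC5⟩ := hCHO
  obtain ⟨hspd, _, hcr, h0, _⟩ := hC5 d x hd hnd
  obtain ⟨σ, hσ, hb⟩ := hTRIP d x hd hnd hce
  obtain ⟨K, hK, hMM⟩ := hMM σ hσ
  have h3 : ∀ a : ℂ × ℂ, a ≠ 0 → ∃ b : ℂ × ℂ, b ≠ 0 ∧ cr ((hF x)^[3] b) a = 0 := by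
    intro a ha
    obtain ⟨b, hb1, _⟩ := hb a ha
    exact ⟨b 0, hb1 0⟩
  obtain ⟨q₀, hq₀, hpq, m, hm⟩ := hdcr
  set c := (hF x)^[m] q₀ with hc
  have hc0 : c ≠ 0 := h0 m q₀ hq₀
  obtain ⟨C, hC, μ, hμ, hgr⟩ := hce c hc0 hm
  set v := (hF x)^[m + 1] q₀ with hv
  have hvc : v = hF x c := Function.iterate_succ_apply' _ _ _
  have hv0 : v ≠ 0 := h0 (m + 1) q₀ hq₀
  obtain ⟨v', hv'⟩ := ex_indep hv0
  obtain ⟨δ₁, hδ₁, hop⟩ := opn h0 hcr h3 (m + 1) hp₀ hq₀ hv' hpq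
  -- the speed of the line
  have hs : 0 < spd (fun w : ℂ => v + w • v') 0 := by
    unfold spd
    have hder : deriv (fun w : ℂ => v + w • v') 0 = v' := by
      have : HasDerivAt (fun w : ℂ => v + w • v') ((1 : ℂ) • v') 0 :=
        ((hasDerivAt_id (0 : ℂ)).smul_const v').const_add v
      rw [this.deriv, one_smul]
    rw [hder]
    show 0 < ‖cr v' (v + (0 : ℂ) • v')‖ / N2 (v + (0 : ℂ) • v')
    rw [zero_smul, add_zero]
    refine div_pos (norm_pos_iff.2 ?_) (N2_pos hv0)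
    intro h
    exact hv' (cr_symm h)
  obtain ⟨j₀, hj₀⟩ : ∃ j₀ : ℕ, ∀ j ≥ j₀, K / δ₁ < C * μ ^ j * spd (fun w : ℂ => v + w • v') 0 := by
    have ht : Tendsto (fun j : ℕ => C * μ ^ j * spd (fun w : ℂ => v + w • v') 0) atTop atTop :=
      ((tendsto_pow_atTop_atTop_of_one_lt hμ).const_mul_atTop hC).atTop_mul_const hs
    exact eventually_atTop.1 (ht.eventually_gt_atTop (K / δ₁))
  refine ⟨j₀ + 3 + (m + 1), fun n hn a ha => ?_⟩
  obtain ⟨j, rfl⟩ : ∃ j, n = 3 + j + (m + 1) := ⟨n - (3 + (m + 1)), by omega⟩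
  have hj : j₀ ≤ j := by omega
  obtain ⟨b, hb1, hb2⟩ := hb a ha
  obtain ⟨w, hw, i, hwi⟩ : ∃ w ∈ ball (0 : ℂ) δ₁, ∃ i, cr ((hF x)^[j] (v + w • v')) (b i) = 0 := by
    by_contra hno
    push Not at hno
    have h1 := hMM (fun w => (hF x)^[j] (v + w • v')) 0 δ₁ (b 0) (b 1) (b 2) hδ₁
      (((it_diff x j).comp (line_diff v v')).differentiableOn)
      (fun z _ => h0 j _ (line_ne hv' z)) (hb1 0).1 (hb1 1).1 (hb1 2).1
      (hb2 0 1 (by decide)) (hb2 1 2 (by decide)) (hb2 0 2 (by decide))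
      (fun z hz => ⟨hno z hz 0, hno z hz 1, hno z hz 2⟩)
    have h2 := hspd (fun w : ℂ => v + w • v') 0 j (line_diff v v').differentiableAt
      (line_ne hv' 0)
    rw [h2] at h1
    have h3' : sdn x j ((fun w : ℂ => v + w • v') 0) = sdn x j (hF x c) := by
      show sdn x j (v + (0 : ℂ) • v') = _
      rw [zero_smul, add_zero, hvc]
    rw [h3'] at h1
    have h4 := mul_le_mul_of_nonneg_right (hgr j) hs.le
    exact absurd (lt_of_lt_of_le (hj₀ j hj) (h4.trans h1)) (lt_irrefl _)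
  obtain ⟨q, hq, hqδ, hqw⟩ := hop w hw
  refine ⟨q, hq, hqδ, ?_⟩
  have hl0 : v + w • v' ≠ 0 := line_ne hv' w
  have e1 : cr ((hF x)^[3 + j] (v + w • v')) a = 0 := by
    rw [Function.iterate_add_apply]
    exact Pool.Agent.H746.HY211.cr_trans (h0 3 _ (hb1 i).1) (hcr 3 _ _ hwi) (hb1 i).2
  rw [Function.iterate_add_apply]
  exact Pool.Agent.H746.HY211.cr_trans (h0 (3 + j) _ hl0) (hcr (3 + j) _ _ hqw) e1

/-- **Topological exactness on the Julia set.** -/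
theorem leoj (hCHO : S_CHO) (hMM : S_MM) (hTRIP : S_TRIP) : S_LEOJ := by
  intro d x hd hnd hce δ hδ
  have htri := hCHO.1
  have hsym := hCHO.2.1
  have hhom := hCHO.2.2.2.1
  have hδ2 : 0 < δ / 2 := by linarith
  have hδ4 : 0 < δ / 4 := by linarith
  -- choose the time for each point
  have hone : ∀ p : ℂ × ℂ, ∃ N : ℕ, p ≠ 0 → ∀ n ≥ N, ∀ u : ℂ × ℂ, u ≠ 0 → Jul x u →
      cho p u < δ / 4 → ∀ a : ℂ × ℂ, a ≠ 0 →
      ∃ q : ℂ × ℂ, q ≠ 0 ∧ cho u q < δ ∧ cr ((hF x)^[n] q) a = 0 := by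
    intro p
    by_cases hp : ∃ p' : ℂ × ℂ, p' ≠ 0 ∧ Jul x p' ∧ cho p p' < δ / 4
    · obtain ⟨p', hp', hJ, hpp⟩ := hp
      obtain ⟨N, hN⟩ := one_discJ hCHO hMM hTRIP hd hnd hce hp' (dcrj hCHO hMM hd hnd hce hp' hJ hδ2)
      refine ⟨N, fun hp0 n hn u hu _ hpu a ha => ?_⟩
      obtain ⟨q, hq, hq1, hq2⟩ := hN n hn a ha
      refine ⟨q, hq, ?_, hq2⟩
      have h1 := htri u p q hu hp0 hq
      have h2 := htri p p' q hp0 hp' hq
      have h3 := (hsym u p).1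
      linarith
    · exact ⟨0, fun _ n _ u hu hJ hpu => absurd ⟨u, hu, hJ, hpu⟩ hp⟩
  choose N hN using hone
  have hcpt : IsCompact (sphere (0 : ℂ × ℂ) 1) := isCompact_sphere _ _
  have hS0 : ∀ p ∈ sphere (0 : ℂ × ℂ) 1, p ≠ 0 := by
    rintro p hp rfl
    rw [mem_sphere_zero_iff_norm, norm_zero] at hp
    exact zero_ne_one hp
  obtain ⟨t, ht, hcov⟩ := hcpt.elim_nhds_subcover (fun p => {y | cho p y < δ / 4}) (by
    intro p hp
    have hp0 := hS0 p hp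
    have h1 := cho_cont hp0 hp0
    have h2 : cho p p = 0 := by
      unfold cho cr
      rw [mul_comm p.2 p.1, sub_self, norm_zero, zero_div]
    exact h1.eventually_lt continuousAt_const (by rw [h2]; exact hδ4))
  refine ⟨t.sup N, fun n hn p a hp hJp ha => ?_⟩
  have hpn : 0 < ‖p‖ := norm_pos_iff.2 hp
  set u : ℂ × ℂ := ((‖p‖⁻¹ : ℝ) : ℂ) • p with hu
  have hinv : ((‖p‖⁻¹ : ℝ) : ℂ) ≠ 0 := by
    rw [Complex.ofReal_ne_zero]
    exact inv_ne_zero hpn.ne'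
  have hun : u ∈ sphere (0 : ℂ × ℂ) 1 := by
    rw [mem_sphere_zero_iff_norm, hu, norm_smul, Complex.norm_real, norm_inv, norm_norm,
      inv_mul_cancel₀ hpn.ne']
  have h1 := hcov hun
  rw [mem_iUnion₂] at h1
  obtain ⟨p₁, hp₁, hu₁⟩ := h1
  have hp₁0 : p₁ ≠ 0 := hS0 p₁ (ht p₁ hp₁)
  have hNn : N p₁ ≤ n := (Finset.le_sup hp₁).trans hn
  have h2 : cho p₁ p < δ / 4 := by
    have h3 : cho p₁ u < δ / 4 := hu₁
    have h4 := hhom p₁ p 1 (((‖p‖⁻¹ : ℝ) : ℂ)) one_ne_zero hinv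
    rw [one_smul] at h4
    rw [← h4]
    exact h3
  exact hN p₁ hp₁0 n hNn p hp hJp h2 a ha

theorem t_LEOJ : S_LEOJ :=
  leoj Pool.Agent.H747.HY211.t_CHO Pool.Agent.H177.HY211.t_MM Pool.Agent.H400.HY211.t_TRIP

end Pool.Agent.H980.HY211
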